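import Pool.Agent.MP_8c1b0d_co.Main

set_option autoImplicit false

namespace Pool.Agent.Results.MP_8c1b0d_co.DoubleCactus

/-- A sufficient condition for a Hamilton decomposition of the prism over a cubic graph. -/
theorem result (V : Type) [Fintype V] [DecidableEq V] (G : SimpleGraph V)
    (hcubic : ∀ v : V, (G.neighborSet v).ncard = 3)
    (S : Set V) (hS : S.Nontrivial) (hforest : (G.induce Sᶜ).IsAcyclic)
    (C R B : SimpleGraph V) (hC : C.IsCycles) (heven : C.Colorable 2)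
    (hunion : ∀ u v, (C ⊔ R ⊔ B).Adj u v ↔ G.Adj u v ∧ u ∈ S ∧ v ∈ S)
    (hCR : Disjoint C R) (hCB : Disjoint C B) (hRB : Disjoint R B)
    (hcactus : ∀ K ∈ ({R, B} : Set (SimpleGraph V)),
      ((C ⊔ K).induce S).Connected ∧
      ∀ u v, K.Adj u v →
        (C ⊔ K).IsBridge s(u, v) ∨
        ((∃ p : C.Walk u v, Even p.length) ∧
          ∀ x y, K.Adj x y → C.Reachable u x →
            s(x, y) = s(u, v) ∨ (C ⊔ K).IsBridge s(x, y))) :
    ∃ (a b : V × Bool)
      (c₁ : (G.boxProd (⊤ : SimpleGraph Bool)).Walk a a)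
      (c₂ : (G.boxProd (⊤ : SimpleGraph Bool)).Walk b b),
      c₁.IsHamiltonianCycle ∧ c₂.IsHamiltonianCycle ∧
      ∀ e ∈ (G.boxProd (⊤ : SimpleGraph Bool)).edgeSet,
        (e ∈ c₁.edges ↔ e ∉ c₂.edges) := by
  have : Nonempty V := ⟨hS.nonempty.some⟩
  exact (Pool.Agent.MP_8c1b0d_co.Good.grow hcubic _ S rfl
    (Pool.Agent.MP_8c1b0d_co.good_of_cactus hcubic hS hC heven hunion hCR hCB hRB hcactus)
    hforest).final hcubic

end Pool.Agent.Results.MP_8c1b0d_co.DoubleCactus
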