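import Pool.Agent.MP_8c1b0d_co.Mg.RI_All
import Pool.Agent.MP_8c1b0d_co.CT4.Main

set_option autoImplicit false

namespace Pool.Agent.Results.MP_8c1b0d_co.Planar
open Pool.Agent.MP_8c1b0d_co

/-- The prism over every 3-connected cubic graph drawn in the plane has a Hamilton
decomposition. -/
theorem result (V : Type) [Fintype V] [DecidableEq V] (G : SimpleGraph V)
    (hc : ∀ v : V, (G.neighborSet v).ncard = 3) (n : 4 ≤ Fintype.card V)
    (h3 : ∀ S : Finset V, S.card ≤ 2 → (G.induce ((S : Set V)ᶜ)).Connected)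
    (p : V → ℂ) (hp : Function.Injective p) (γ : ∀ u v : V, G.Adj u v → Path (p u) (p v))
    (hv : ∀ (u v : V) (h : G.Adj u v) (t : unitInterval),
      0 < (t : ℝ) → (t : ℝ) < 1 → ∀ w : V, γ u v h t ≠ p w)
    (hx : ∀ (u v : V) (h : G.Adj u v) (u' v' : V) (h' : G.Adj u' v') (t t' : unitInterval),
      0 < (t : ℝ) → (t : ℝ) < 1 → 0 < (t' : ℝ) → (t' : ℝ) < 1 →
      γ u v h t = γ u' v' h' t' → s(u, v) = s(u', v')) :
    ∃ (a b : V × Bool)
      (c₁ : (G.boxProd (⊤ : SimpleGraph Bool)).Walk a a)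
      (c₂ : (G.boxProd (⊤ : SimpleGraph Bool)).Walk b b),
      c₁.IsHamiltonianCycle ∧ c₂.IsHamiltonianCycle ∧
      ∀ e ∈ (G.boxProd (⊤ : SimpleGraph Bool)).edgeSet,
        (e ∈ c₁.edges ↔ e ∉ c₂.edges) :=
  RI.planar_of CT4.four_colour V G hc n h3 p hp γ hv hx

end Pool.Agent.Results.MP_8c1b0d_co.Planar
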